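import Pool.Agent.Q17.Inv.Final

/-!
# Involution proportions of finite groups are not dense

The set `𝓘` of all proportions of involutions of finite groups has a countable closure.  In
particular it is nowhere dense, and it misses an open subinterval of `[0, 1/2]`.
-/

namespace Pool.Agent.Results.MP_32cd73_al

/-- The proportion of involutions (elements of order exactly `2`) of the finite group `G`. -/
noncomputable def involutionProportion (G : Type) [Group G] : ℝ :=
  (Nat.card {x : G // orderOf x = 2} : ℝ) / (Nat.card G : ℝ)

/-- The set of the involution proportions of all finite groups. -/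
def involutionProportions : Set ℝ :=
  {t | ∃ (G : Type) (_ : Group G) (_ : Finite G), involutionProportion G = t}

/-- The closure of the set of involution proportions of finite groups is countable; every
interval `(a, b)` contains an open subinterval free of such proportions; and the set is not dense
in `[0, 1/2]`: there are `t ∈ [0, 1/2]` and `ε > 0` such that no finite group `G` satisfies
`|i(G) - t| < ε`. -/
theorem CountableClosure.result :
    (closure involutionProportions).Countable ∧
    (∀ a b : ℝ, a < b → ∃ a' b' : ℝ, a < a' ∧ a' < b' ∧ b' < b ∧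
      Disjoint (Set.Ioo a' b') involutionProportions) ∧
    ∃ t ∈ Set.Icc (0 : ℝ) (1 / 2), ∃ ε > 0, ∀ (G : Type) [Group G] [Finite G],
      ¬ |involutionProportion G - t| < ε := by
  have hcl : (closure involutionProportions).Countable := by
    have hK : ∀ n : ℕ, ∃ K : Set ℝ, IsCompact K ∧ K.Countable ∧
        ∀ (G : Type) [Group G] [Finite G],
          (1 : ℝ) / ((n + 1 : ℕ) : ℝ) ≤ involutionProportion G → involutionProportion G ∈ K :=
      fun n => Q17.Inv.exists_real (n + 1) (by omega)
    choose K hKc hKn hK using hK
    have hsub : closure involutionProportions ⊆ insert 0 (⋃ n, K n) := by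
      intro x hx
      by_contra hcon
      simp only [Set.mem_insert_iff, Set.mem_iUnion, not_or, not_exists] at hcon
      obtain ⟨hx0, hxK⟩ := hcon
      have hxnn : 0 ≤ x := by
        have h1 : involutionProportions ⊆ Set.Ici 0 := by
          rintro t ⟨G, _, _, rfl⟩
          change 0 ≤ involutionProportion G
          unfold involutionProportion
          positivity
        exact closure_minimal h1 isClosed_Ici hx
      have hxpos : 0 < x := lt_of_le_of_ne hxnn (Ne.symm hx0)
      obtain ⟨n, hn⟩ := exists_nat_one_div_lt hxpos
      have hopen : IsOpen ((K n)ᶜ ∩ Set.Ioi ((1 : ℝ) / (n + 1))) :=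
        (hKc n).isClosed.isOpen_compl.inter isOpen_Ioi
      obtain ⟨y, ⟨hyK, hyn⟩, hyI⟩ := mem_closure_iff.mp hx _ hopen ⟨hxK n, hn⟩
      obtain ⟨G, _, _, rfl⟩ := hyI
      apply hyK
      apply hK n G
      push_cast
      exact le_of_lt hyn
    exact ((Set.countable_iUnion hKn).insert 0).mono hsub
  have hgap : ∀ a b : ℝ, a < b → ∃ a' b' : ℝ, a < a' ∧ a' < b' ∧ b' < b ∧
      Disjoint (Set.Ioo a' b') involutionProportions := by
    intro a b hab
    have h1 : ¬ Set.Ioo a b ⊆ closure involutionProportions := by
      intro h
      exact absurd (Cardinal.Real.Ioo_countable_iff.mp (hcl.mono h)) (not_le.mpr hab)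
    obtain ⟨t, ht, htc⟩ := Set.not_subset.mp h1
    have hopen : IsOpen (Set.Ioo a b ∩ (closure involutionProportions)ᶜ) :=
      isOpen_Ioo.inter isClosed_closure.isOpen_compl
    obtain ⟨ε, hε, hball⟩ := Metric.isOpen_iff.mp hopen t ⟨ht, htc⟩
    have hin : ∀ y, |y - t| < ε → a < y ∧ y < b ∧ y ∉ closure involutionProportions := by
      intro y hy
      have := hball (show y ∈ Metric.ball t ε by rw [Metric.mem_ball, Real.dist_eq]; exact hy)
      exact ⟨this.1.1, this.1.2, this.2⟩
    refine ⟨t - ε / 2, t + ε / 2, ?_, by linarith, ?_, ?_⟩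
    · exact (hin (t - ε / 2) (by rw [abs_lt]; constructor <;> linarith)).1
    · exact (hin (t + ε / 2) (by rw [abs_lt]; constructor <;> linarith)).2.1
    · rw [Set.disjoint_left]
      intro y hy hyI
      exact (hin y (by rw [abs_lt]; constructor <;> linarith [hy.1, hy.2])).2.2
        (subset_closure hyI)
  refine ⟨hcl, hgap, ?_⟩
  obtain ⟨a', b', h1, h2, h3, h4⟩ := hgap 0 (1 / 2) (by norm_num)
  refine ⟨(a' + b') / 2, ⟨by linarith, by linarith⟩, (b' - a') / 2, by linarith, ?_⟩
  intro G _ _ hG
  rw [abs_lt] at hG
  exact Set.disjoint_left.mp h4 (show involutionProportion G ∈ Set.Ioo a' b' from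
    ⟨by linarith [hG.1], by linarith [hG.2]⟩) ⟨G, _, inferInstance, rfl⟩

end Pool.Agent.Results.MP_32cd73_al
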